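import Pool.Agent.W309.LR.Elem

/-!
# Pairs of powers with integer and rational exponents
-/

set_option autoImplicit false

namespace Pool.Agent.W309.LR

open Polynomial Module

theorem z0 (a : Qb) (x : ℂ) : (a : ℂ) + ((0 : Qb) : ℂ) * x = a := by push_cast; ring

theorem tr_inv {u : ℂ} (hu : Transcendental ℚ u) : Transcendental ℚ u⁻¹ := fun h => hu (by
  simpa using h.inv)

theorem tr_zpow {u : ℂ} (hu : Transcendental ℚ u) {j : ℤ} (hj : j ≠ 0) :
    Transcendental ℚ (u ^ j) := by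
  rcases lt_or_gt_of_ne hj with h | h
  · obtain ⟨n, hn⟩ := Int.eq_ofNat_of_zero_le (by omega : 0 ≤ -j)
    have h1 : u ^ j = (u⁻¹) ^ n := by
      rw [inv_pow, ← zpow_natCast, ← zpow_neg, ← hn, neg_neg]
    rw [h1]
    exact (tr_inv hu).pow (by omega)
  · obtain ⟨n, rfl⟩ := Int.eq_ofNat_of_zero_le h.le
    rw [zpow_natCast]
    exact hu.pow (by omega)

/-- the main step: `j, k > 0`, `j', k' ≠ 0` arbitrary -/
theorem pairs1 {u v : ℂ} (hu : Transcendental ℚ u) (hv : Transcendental ℚ v) {j k : ℕ}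
    {j' k' : ℤ} (hj : 1 ≤ j) (hk : 1 ≤ k) (hj' : j' ≠ 0) (hk' : k' ≠ 0)
    (h1 : ¬ LinearIndependent Qb ![(1 : ℂ), u ^ j, v ^ k])
    (h2 : ¬ LinearIndependent Qb ![(1 : ℂ), u ^ j', v ^ k'])
    (hne : ((j : ℤ), (k : ℤ)) ≠ (j', k')) :
    (j : ℤ) * k' = j' * k ∧ IsAlgebraic ℚ (u ^ j / v ^ k) := by
  have hu0 : u ≠ 0 := by rintro rfl; exact hu isAlgebraic_zero
  have hv0 : v ≠ 0 := by rintro rfl; exact hv isAlgebraic_zero
  have deg : ∀ (a b : Qb) (j : ℕ), b ≠ 0 → 1 ≤ j → (C a + C b * X ^ j : Qb[X]).natDegree = j := by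
    intro a b j hb hj
    rw [natDegree_add_eq_right_of_natDegree_lt, natDegree_C_mul_X_pow j b hb]
    rw [natDegree_C_mul_X_pow j b hb, natDegree_C]; omega
  obtain ⟨a, b, hab⟩ := (dep_iff (hu.pow (by omega))).1 h1
  obtain ⟨a', b', hab'⟩ := (dep_iff (tr_zpow hu hj')).1 h2
  have hb : b ≠ 0 := by
    rintro rfl
    rw [z0] at hab
    exact (hv.pow (n := k) (by omega)) (by rw [hab]; exact mem_Qb.1 a.2)
  have hb' : b' ≠ 0 := by
    rintro rfl
    rw [z0] at hab'
    exact (tr_zpow hv hk') (by rw [hab']; exact mem_Qb.1 a'.2)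
  rcases lt_or_gt_of_ne hj' with hjs | hjs
  · -- `j' < 0`
    obtain ⟨J, hJ⟩ := Int.eq_ofNat_of_zero_le (by omega : 0 ≤ -j')
    have hJ1 : 1 ≤ J := by omega
    have huj : u ^ j' = (u ^ J)⁻¹ := by
      rw [← zpow_natCast, ← zpow_neg, ← hJ, neg_neg]
    have e1 : v ^ k' * u ^ J = a' * u ^ J + b' := by
      rw [hab', huj]
      have : u ^ J ≠ 0 := pow_ne_zero _ hu0
      field_simp
    rcases lt_or_gt_of_ne hk' with hks | hks
    · -- `k' < 0`
      obtain ⟨M, hM⟩ := Int.eq_ofNat_of_zero_le (by omega : 0 ≤ -k')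
      have hM1 : 1 ≤ M := by omega
      have hvk : v ^ k' = (v ^ M)⁻¹ := by
        rw [← zpow_natCast, ← zpow_neg, ← hM, neg_neg]
      have e2 : u ^ J = (a' * u ^ J + b') * v ^ M := by
        rw [← e1, hvk]
        have : v ^ M ≠ 0 := pow_ne_zero _ hv0
        field_simp
      have key : (X ^ (J * k) : Qb[X]) = (C b' + C a' * X ^ J) ^ k * (C a + C b * X ^ j) ^ M := by
        apply eval_inj hu
        simp only [map_pow, map_add, map_mul, aeval_C, aeval_X]
        change u ^ (J * k) = ((b' : ℂ) + a' * u ^ J) ^ k * ((a : ℂ) + b * u ^ j) ^ M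
        calc u ^ (J * k) = (u ^ J) ^ k := pow_mul _ _ _
          _ = ((a' * u ^ J + b') * v ^ M) ^ k := by rw [← e2]
          _ = ((b' : ℂ) + a' * u ^ J) ^ k * (v ^ k) ^ M := by
            rw [mul_pow, ← pow_mul v M k, ← pow_mul v k M, mul_comm M k, add_comm (b' : ℂ)]
          _ = _ := by rw [hab]
      have h0 := congrArg (eval 0) key
      simp only [eval_pow, eval_add, eval_mul, eval_C, eval_X] at h0
      rw [zero_pow (by omega : j ≠ 0), zero_pow (by omega : J ≠ 0), mul_zero, mul_zero, add_zero,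
        add_zero, zero_pow (Nat.mul_ne_zero (by omega) (by omega))] at h0
      have ha : a = 0 := by
        rcases mul_eq_zero.1 h0.symm with h | h
        · exact absurd (pow_eq_zero_iff (by omega) |>.1 h) hb'
        · exact pow_eq_zero_iff (by omega) |>.1 h
      have hd := congrArg natDegree key
      rw [natDegree_X_pow, natDegree_mul, natDegree_pow, natDegree_pow, deg a b j hb hj] at hd
      rotate_left
      · refine pow_ne_zero _ fun h => hb' ?_
        have := congrArg (eval 0) h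
        simp only [eval_add, eval_mul, eval_C, eval_pow, eval_X, eval_zero] at this
        rwa [zero_pow (by omega : J ≠ 0), mul_zero, add_zero] at this
      · refine pow_ne_zero _ fun h => ?_
        have := deg a b j hb hj
        rw [h, natDegree_zero] at this
        omega
      have ha' : a' = 0 := by
        by_contra ha'
        rw [deg b' a' J ha' hJ1] at hd
        have : 0 < M * j := Nat.mul_pos (by omega) (by omega)
        nlinarith
      rw [ha', C_0, zero_mul, add_zero, natDegree_C, mul_zero, zero_add] at hd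
      constructor
      · have h3 : ((J * k : ℕ) : ℤ) = ((M * j : ℕ) : ℤ) := by rw [hd]
        push_cast at h3
        have h4 : j' = -(J : ℤ) := by omega
        have h5 : k' = -(M : ℤ) := by omega
        rw [h4, h5]; linarith
      · rw [hab, ha]
        have h3 : (b : ℂ) ≠ 0 := fun h => hb (Subtype.ext h)
        have h4 : u ^ j ≠ 0 := pow_ne_zero _ hu0
        have h5 : u ^ j / (((0 : Qb) : ℂ) + b * u ^ j) = (b : ℂ)⁻¹ := by
          push_cast; field_simp; simp
        rw [h5]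
        exact (mem_Qb.1 b.2).inv
    · -- `k' > 0`
      exfalso
      obtain ⟨M, rfl⟩ := Int.eq_ofNat_of_zero_le hks.le
      rw [zpow_natCast] at e1
      have key : (X ^ (J * k) * (C a + C b * X ^ j) ^ M : Qb[X]) = (C b' + C a' * X ^ J) ^ k := by
        apply eval_inj hu
        simp only [map_pow, map_add, map_mul, aeval_C, aeval_X]
        change u ^ (J * k) * ((a : ℂ) + b * u ^ j) ^ M = ((b' : ℂ) + a' * u ^ J) ^ k
        have e3 : (b' : ℂ) + a' * u ^ J = v ^ M * u ^ J := by rw [e1]; ring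
        rw [e3, ← hab]; ring
      have h0 := congrArg (eval 0) key
      simp only [eval_pow, eval_add, eval_mul, eval_C, eval_X] at h0
      rw [zero_pow (by omega : J ≠ 0), mul_zero, add_zero,
        zero_pow (Nat.mul_ne_zero (by omega) (by omega)), zero_mul] at h0
      exact hb' (pow_eq_zero_iff (by omega) |>.1 h0.symm)
  · obtain ⟨J, rfl⟩ := Int.eq_ofNat_of_zero_le hjs.le
    have hJ1 : 1 ≤ J := by omega
    rw [zpow_natCast] at h2 hab'
    rcases lt_or_gt_of_ne hk' with hks | hks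
    · exfalso
      obtain ⟨M, hM⟩ := Int.eq_ofNat_of_zero_le (by omega : 0 ≤ -k')
      have hM1 : 1 ≤ M := by omega
      have hvk : v ^ k' = (v ^ M)⁻¹ := by
        rw [← zpow_natCast, ← zpow_neg, ← hM, neg_neg]
      have e2 : (a' + b' * u ^ J) * v ^ M = 1 := by
        rw [← hab', hvk]
        have : v ^ M ≠ 0 := pow_ne_zero _ hv0
        field_simp
      have key : ((C a' + C b' * X ^ J) ^ k * (C a + C b * X ^ j) ^ M : Qb[X]) = 1 := by
        apply eval_inj hu
        simp only [map_pow, map_add, map_mul, aeval_C, aeval_X, map_one]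
        change ((a' : ℂ) + b' * u ^ J) ^ k * ((a : ℂ) + b * u ^ j) ^ M = 1
        rw [← hab, ← pow_mul, mul_comm k M, pow_mul, ← mul_pow, e2, one_pow]
      have hd := congrArg natDegree key
      have n1 : ∀ (a b : Qb) (j : ℕ), b ≠ 0 → 1 ≤ j → (C a + C b * X ^ j : Qb[X]) ≠ 0 := by
        intro a b j hb hj h
        have := deg a b j hb hj
        rw [h, natDegree_zero] at this
        omega
      rw [natDegree_mul (pow_ne_zero _ (n1 a' b' J hb' hJ1)) (pow_ne_zero _ (n1 a b j hb hj)),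
        natDegree_pow, natDegree_pow, deg a b j hb hj, deg a' b' J hb' hJ1, natDegree_one] at hd
      have : 0 < M * j := Nat.mul_pos (by omega) (by omega)
      omega
    · obtain ⟨M, rfl⟩ := Int.eq_ofNat_of_zero_le hks.le
      have hM1 : 1 ≤ M := by omega
      rw [zpow_natCast] at h2
      have h := pairs hu hv hj hk hJ1 hM1 h1 h2 (by
        intro h
        apply hne
        rw [Prod.mk.injEq] at h
        rw [h.1, h.2])
      refine ⟨?_, h.2⟩
      exact_mod_cast h.1

/-- integer exponents -/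
theorem pairsZ {u v : ℂ} (hu : Transcendental ℚ u) (hv : Transcendental ℚ v) {j k j' k' : ℤ}
    (hj : j ≠ 0) (hk : k ≠ 0) (hj' : j' ≠ 0) (hk' : k' ≠ 0)
    (h1 : ¬ LinearIndependent Qb ![(1 : ℂ), u ^ j, v ^ k])
    (h2 : ¬ LinearIndependent Qb ![(1 : ℂ), u ^ j', v ^ k']) (hne : (j, k) ≠ (j', k')) :
    j * k' = j' * k ∧ IsAlgebraic ℚ (u ^ j / v ^ k) := by
  have neg : ∀ (j : ℤ) (J : ℕ), -j = (J : ℤ) → ∀ u : ℂ, u ^ j = (u⁻¹) ^ J := by
    intro j J h u
    rw [inv_pow, ← zpow_natCast, ← zpow_neg, ← h, neg_neg]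
  have flip : ∀ (u : ℂ) (j : ℤ), u ^ j = (u⁻¹) ^ (-j) := by
    intro u j; rw [inv_zpow, zpow_neg, inv_inv]
  rcases lt_or_gt_of_ne hj with hjs | hjs <;> rcases lt_or_gt_of_ne hk with hks | hks
  · obtain ⟨J, hJ⟩ := Int.eq_ofNat_of_zero_le (by omega : 0 ≤ -j)
    obtain ⟨M, hM⟩ := Int.eq_ofNat_of_zero_le (by omega : 0 ≤ -k)
    rw [neg j J hJ u, neg k M hM v] at h1 ⊢
    rw [flip u j', flip v k'] at h2
    have h := pairs1 (tr_inv hu) (tr_inv hv) (by omega) (by omega) (j' := -j') (k' := -k')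
      (by omega) (by omega) h1 h2 (by
        intro h; apply hne
        rw [Prod.mk.injEq] at h ⊢
        omega)
    refine ⟨?_, h.2⟩
    have := h.1
    rw [← hJ, ← hM] at this
    linarith
  · obtain ⟨J, hJ⟩ := Int.eq_ofNat_of_zero_le (by omega : 0 ≤ -j)
    obtain ⟨M, rfl⟩ := Int.eq_ofNat_of_zero_le hks.le
    rw [neg j J hJ u, zpow_natCast] at h1
    rw [neg j J hJ u, zpow_natCast]
    rw [flip u j'] at h2
    have h := pairs1 (tr_inv hu) hv (by omega) (by omega) (j' := -j') (k' := k')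
      (by omega) (by omega) h1 h2 (by
        intro h; apply hne
        rw [Prod.mk.injEq] at h ⊢
        omega)
    refine ⟨?_, h.2⟩
    have := h.1
    rw [← hJ] at this
    linarith
  · obtain ⟨J, rfl⟩ := Int.eq_ofNat_of_zero_le hjs.le
    obtain ⟨M, hM⟩ := Int.eq_ofNat_of_zero_le (by omega : 0 ≤ -k)
    rw [neg k M hM v, zpow_natCast] at h1
    rw [neg k M hM v, zpow_natCast]
    rw [flip v k'] at h2
    have h := pairs1 hu (tr_inv hv) (by omega) (by omega) (j' := j') (k' := -k')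
      (by omega) (by omega) h1 h2 (by
        intro h; apply hne
        rw [Prod.mk.injEq] at h ⊢
        omega)
    refine ⟨?_, h.2⟩
    have := h.1
    rw [← hM] at this
    linarith
  · obtain ⟨J, rfl⟩ := Int.eq_ofNat_of_zero_le hjs.le
    obtain ⟨M, rfl⟩ := Int.eq_ofNat_of_zero_le hks.le
    rw [zpow_natCast, zpow_natCast] at h1
    rw [zpow_natCast, zpow_natCast]
    exact pairs1 hu hv (by omega) (by omega) hj' hk' h1 h2 hne

/-- rational exponents, `e` and `π` -/
theorem pairsQ (hp : Transcendental ℚ (Real.pi : ℂ)) (he : Transcendental ℚ (Complex.exp 1))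
    {r s r' s' : ℚ} (hr : r ≠ 0) (hs : s ≠ 0) (hr' : r' ≠ 0) (hs' : s' ≠ 0)
    (hne : (r, s) ≠ (r', s'))
    (h1 : ¬ LinearIndependent Qb ![(1 : ℂ), Complex.exp r, ((Real.pi ^ (s : ℝ) : ℝ) : ℂ)])
    (h2 : ¬ LinearIndependent Qb ![(1 : ℂ), Complex.exp r', ((Real.pi ^ (s' : ℝ) : ℝ) : ℂ)]) :
    r * s' = r' * s ∧ IsAlgebraic ℚ (Complex.exp r / ((Real.pi ^ (s : ℝ) : ℝ) : ℂ)) := by
  set D : ℕ := r.den * s.den * (r'.den * s'.den) with hD
  have hD0 : D ≠ 0 := by
    rw [hD]
    exact Nat.mul_ne_zero (Nat.mul_ne_zero r.den_nz s.den_nz) (Nat.mul_ne_zero r'.den_nz s'.den_nz)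
  have hDq : (D : ℚ) ≠ 0 := by exact_mod_cast hD0
  have ex : ∀ q : ℚ, q.den ∣ D → ∃ m : ℤ, (m : ℚ) = q * D := by
    rintro q ⟨k, hk⟩
    refine ⟨q.num * k, ?_⟩
    rw [hk]
    push_cast
    rw [← mul_assoc, Rat.mul_den_eq_num]
  obtain ⟨j, hj⟩ := ex r ⟨s.den * (r'.den * s'.den), by rw [hD]; ring⟩
  obtain ⟨k, hk⟩ := ex s ⟨r.den * (r'.den * s'.den), by rw [hD]; ring⟩
  obtain ⟨j', hj'⟩ := ex r' ⟨r.den * s.den * s'.den, by rw [hD]; ring⟩
  obtain ⟨k', hk'⟩ := ex s' ⟨r.den * s.den * r'.den, by rw [hD]; ring⟩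
  set u : ℂ := Complex.exp ((1 : ℂ) / D) with hu
  set v : ℂ := ((Real.pi ^ ((1 : ℝ) / D) : ℝ) : ℂ) with hv
  have hDc : (D : ℂ) ≠ 0 := by exact_mod_cast hD0
  have hDr : (D : ℝ) ≠ 0 := by exact_mod_cast hD0
  have hut : Transcendental ℚ u := by
    intro h
    apply he
    have h3 : Complex.exp 1 = u ^ D := by
      rw [hu, ← Complex.exp_nat_mul]; congr 1; field_simp
    rw [h3]; exact h.pow D
  have hvt : Transcendental ℚ v := by
    intro h
    apply hp
    have h3 : (Real.pi : ℂ) = v ^ D := by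
      rw [hv, ← Complex.ofReal_pow, ← Real.rpow_natCast, ← Real.rpow_mul Real.pi_pos.le]
      have : (1 : ℝ) / D * D = 1 := by field_simp
      rw [this, Real.rpow_one]
    rw [h3]; exact h.pow D
  have eu : ∀ (q : ℚ) (m : ℤ), (m : ℚ) = q * D → Complex.exp q = u ^ m := by
    intro q m h
    rw [hu, ← Complex.exp_int_mul]
    congr 1
    have h3 := congrArg (fun z : ℚ => (z : ℂ)) h
    push_cast at h3
    rw [h3]; field_simp
  have ev : ∀ (q : ℚ) (m : ℤ), (m : ℚ) = q * D → ((Real.pi ^ (q : ℝ) : ℝ) : ℂ) = v ^ m := by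
    intro q m h
    rw [hv, ← Complex.ofReal_zpow, ← Real.rpow_intCast, ← Real.rpow_mul Real.pi_pos.le]
    congr 2
    have h3 := congrArg (fun z : ℚ => (z : ℝ)) h
    push_cast at h3
    rw [h3]; field_simp
  rw [eu r j hj, ev s k hk] at h1 ⊢
  rw [eu r' j' hj', ev s' k' hk'] at h2
  have nz : ∀ (q : ℚ) (m : ℤ), q ≠ 0 → (m : ℚ) = q * D → m ≠ 0 := by
    rintro q m hq h rfl
    rw [Int.cast_zero] at h
    exact (mul_ne_zero hq hDq) h.symm
  have h := pairsZ hut hvt (nz r j hr hj) (nz s k hs hk) (nz r' j' hr' hj') (nz s' k' hs' hk') h1 h2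
    (by
      intro h
      apply hne
      rw [Prod.mk.injEq] at h ⊢
      constructor
      · apply mul_right_cancel₀ hDq; rw [← hj, ← hj', h.1]
      · apply mul_right_cancel₀ hDq; rw [← hk, ← hk', h.2])
  refine ⟨?_, h.2⟩
  have h3 := congrArg (fun z : ℤ => (z : ℚ)) h.1
  push_cast at h3
  rw [hj, hk, hj', hk'] at h3
  have h4 : (r * s') * ((D : ℚ) * D) = (r' * s) * ((D : ℚ) * D) := by linarith
  exact mul_right_cancel₀ (mul_ne_zero hDq hDq) h4

end Pool.Agent.W309.LR
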