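import Mathlib

/-!
# Values of exponentials that are linear forms in `1, t`
-/

set_option autoImplicit false

namespace Pool.Agent.W309.LR

open Polynomial Module

/-- the algebraic numbers -/
noncomputable abbrev Qb : IntermediateField ℚ ℂ := algebraicClosure ℚ ℂ

theorem mem_Qb {x : ℂ} : x ∈ Qb ↔ IsAlgebraic ℚ x := mem_algebraicClosure_iff

theorem trans_Qb {t : ℂ} (ht : Transcendental ℚ t) : Transcendental Qb t := by
  have h : Algebra.IsAlgebraic ℚ Qb := algebraicClosure.isAlgebraic ℚ ℂ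
  exact (Algebra.IsAlgebraic.transcendental_iff ℚ Qb).1 ht

/-- evaluation at `t` is injective -/
theorem eval_inj {t : ℂ} (ht : Transcendental ℚ t) {A B : Qb[X]} (h : aeval t A = aeval t B) :
    A = B := (transcendental_iff_injective.1 (trans_Qb ht)) h

/-- linear dependence of `1, t, z` -/
theorem dep_iff {t z : ℂ} (ht : Transcendental ℚ t) :
    ¬ LinearIndependent Qb ![(1 : ℂ), t, z] ↔
      ∃ a b : Qb, z = a + b * t := by
  have ht0 : ∀ a b : Qb, (a : ℂ) + b * t = 0 → a = 0 ∧ b = 0 := by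
    intro a b h
    have h1 : aeval t (C a + C b * X : Qb[X]) = aeval t (0 : Qb[X]) := by
      simp only [map_add, map_mul, aeval_C, aeval_X, map_zero]
      exact h
    have h2 := eval_inj ht h1
    have h3 := congrArg (fun p => p.coeff 0) h2
    have h4 := congrArg (fun p => p.coeff 1) h2
    simp at h3 h4
    exact ⟨h3, h4⟩
  rw [Fintype.not_linearIndependent_iff]
  constructor
  · rintro ⟨g, hg, i, hi⟩
    rw [Fin.sum_univ_three] at hg
    simp only [Matrix.cons_val_zero, Matrix.cons_val_one, Matrix.cons_val_two, Matrix.head_cons,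
      Matrix.tail_cons] at hg
    change (g 0 : ℂ) * 1 + (g 1 : ℂ) * t + (g 2 : ℂ) * z = 0 at hg
    by_cases h2 : g 2 = 0
    · exfalso
      rw [h2] at hg
      have h3 := ht0 (g 0) (g 1) (by
        rw [← hg]; push_cast; ring)
      fin_cases i
      · exact hi h3.1
      · exact hi h3.2
      · exact hi h2
    · have h2' : (g 2 : ℂ) ≠ 0 := fun h => h2 (Subtype.ext h)
      refine ⟨-(g 0) / g 2, -(g 1) / g 2, ?_⟩
      push_cast
      field_simp
      linear_combination hg
  · rintro ⟨a, b, h⟩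
    refine ⟨![a, b, -1], ?_, 2, by simp⟩
    rw [Fin.sum_univ_three]
    simp only [Matrix.cons_val_zero, Matrix.cons_val_one, Matrix.cons_val_two, Matrix.head_cons,
      Matrix.tail_cons]
    change (a : ℂ) * 1 + (b : ℂ) * t + ((-1 : Qb) : ℂ) * z = 0
    push_cast
    rw [h]; ring

/-- multiplicative independence of the numbers `t - r` modulo algebraic numbers -/
theorem mult_ind {t : ℂ} (ht : Transcendental ℚ t) {ι : Type} (s : Finset ι) (r : ι → Qb)
    (hr : ∀ i ∈ s, ∀ j ∈ s, r i = r j → i = j) (m : ι → ℤ)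
    (h : IsAlgebraic ℚ (∏ i ∈ s, (t - r i) ^ (m i))) : ∀ i ∈ s, m i = 0 := by
  have hne : ∀ i, t - (r i : ℂ) ≠ 0 := by
    intro i h0
    refine ht ?_
    rw [sub_eq_zero.1 h0]
    exact mem_Qb.1 (r i).2
  set c : Qb := ⟨_, mem_Qb.2 h⟩ with hc
  have hc0 : c ≠ 0 := by
    intro h0
    have h1 : (c : ℂ) = 0 := by rw [h0]; rfl
    have h2 : (∏ i ∈ s, (t - (r i : ℂ)) ^ (m i)) = 0 := h1
    rw [Finset.prod_eq_zero_iff] at h2
    obtain ⟨i, -, h3⟩ := h2
    exact zpow_ne_zero _ (hne i) h3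
  have key : (∏ i ∈ s, (X - C (r i)) ^ (m i).toNat : Qb[X]) =
      C c * ∏ i ∈ s, (X - C (r i)) ^ (-(m i)).toNat := by
    apply eval_inj ht
    simp only [map_prod, map_mul, map_pow, map_sub, aeval_X, aeval_C]
    change (∏ i ∈ s, (t - (r i : ℂ)) ^ (m i).toNat) =
      (∏ i ∈ s, (t - (r i : ℂ)) ^ (m i)) * ∏ i ∈ s, (t - (r i : ℂ)) ^ (-(m i)).toNat
    rw [← Finset.prod_mul_distrib]
    refine Finset.prod_congr rfl fun i _ => ?_
    rw [← zpow_natCast, ← zpow_natCast, ← zpow_add₀ (hne i)]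
    congr 1
    omega
  intro i hi
  have h1 := congrArg (eval (r i)) key
  rw [eval_prod, eval_mul, eval_C, eval_prod] at h1
  simp only [eval_pow, eval_sub, eval_X, eval_C] at h1
  have nz : ∀ (f : ι → ℕ), f i = 0 → (∏ j ∈ s, (r i - r j) ^ (f j)) ≠ 0 := by
    intro f hf h2
    rw [Finset.prod_eq_zero_iff] at h2
    obtain ⟨j, hj, h3⟩ := h2
    by_cases hij : i = j
    · subst hij; rw [hf, pow_zero] at h3; exact one_ne_zero h3
    · exact pow_ne_zero _ (sub_ne_zero.2 fun h4 => hij (hr i hi j hj h4)) h3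
  have zz : ∀ (f : ι → ℕ), f i ≠ 0 → (∏ j ∈ s, (r i - r j) ^ (f j)) = 0 := by
    intro f hf
    refine Finset.prod_eq_zero hi ?_
    rw [sub_self, zero_pow hf]
  rcases lt_trichotomy (m i) 0 with hm | hm | hm
  · exfalso
    rw [zz (fun j => (-(m j)).toNat) (by omega), mul_zero] at h1
    exact nz (fun j => (m j).toNat) (by omega) h1
  · exact hm
  · exfalso
    rw [zz (fun j => (m j).toNat) (by omega)] at h1
    exact (mul_ne_zero hc0 (nz (fun j => (-(m j)).toNat) (by omega))) h1.symm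

/-- common denominators -/
theorem clear {ι : Type} (s : Finset ι) (g : ι → ℚ) :
    ∃ (D : ℕ) (m : ι → ℤ), D ≠ 0 ∧ ∀ i ∈ s, (m i : ℚ) = D * g i := by
  classical
  refine ⟨∏ i ∈ s, (g i).den, fun i => (∏ j ∈ s.erase i, (g j).den : ℕ) * (g i).num, ?_, ?_⟩
  · exact Finset.prod_ne_zero_iff.2 fun i _ => (g i).den_nz
  · intro i hi
    rw [← Finset.mul_prod_erase s (fun i => (g i).den) hi]
    push_cast
    have := Rat.mul_den_eq_num (g i)
    rw [← this]; ring

theorem alg_int {x : ℂ} (hx : IsAlgebraic ℚ x) (m : ℤ) : IsAlgebraic ℚ (x ^ m) := by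
  rw [← mem_Qb] at hx ⊢
  exact zpow_mem hx m

theorem alg_exp_rat {z : ℂ} (h : IsAlgebraic ℚ (Complex.exp z)) (q : ℚ) :
    IsAlgebraic ℚ (Complex.exp (q * z)) := by
  have h1 : Complex.exp (q * z) ^ q.den = Complex.exp z ^ q.num := by
    rw [← Complex.exp_nat_mul, ← Complex.exp_int_mul]
    congr 1
    have h3 := congrArg (fun z : ℚ => (z : ℂ)) (Rat.mul_den_eq_num q)
    push_cast at h3
    rw [← h3]; ring
  refine IsAlgebraic.of_pow (n := q.den) q.pos ?_
  rw [h1]; exact alg_int h _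

/-- the abstract independence statement: `E i = exp (w i) = b i * (t - r i)` with distinct `r i`;
a rational combination of the `w i` whose exponential is algebraic is trivial -/
theorem comb {t : ℂ} (ht : Transcendental ℚ t) {ι : Type} (s : Finset ι) (w : ι → ℂ)
    (r b : ι → Qb) (hE : ∀ i ∈ s, Complex.exp (w i) = b i * (t - r i))
    (hr : ∀ i ∈ s, ∀ j ∈ s, r i = r j → i = j) (g : ι → ℚ)
    (h : IsAlgebraic ℚ (Complex.exp (∑ i ∈ s, (g i : ℂ) * w i))) : ∀ i ∈ s, g i = 0 := by
  obtain ⟨D, m, hD, hm⟩ := clear s g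
  have h1 := alg_exp_rat h D
  have h2 : ((D : ℚ) : ℂ) * ∑ i ∈ s, (g i : ℂ) * w i = ∑ i ∈ s, (m i : ℂ) * w i := by
    rw [Finset.mul_sum]
    refine Finset.sum_congr rfl fun i hi => ?_
    have h3 := congrArg (fun z : ℚ => (z : ℂ)) (hm i hi)
    push_cast at h3 ⊢
    rw [h3]; ring
  rw [h2, Complex.exp_sum] at h1
  have h4 : ∏ i ∈ s, Complex.exp ((m i : ℂ) * w i) =
      (∏ i ∈ s, ((b i : ℂ)) ^ (m i)) * ∏ i ∈ s, (t - (r i : ℂ)) ^ (m i) := by
    rw [← Finset.prod_mul_distrib]
    refine Finset.prod_congr rfl fun i hi => ?_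
    rw [Complex.exp_int_mul, hE i hi, mul_zpow]
  have hb : ∀ i ∈ s, (b i : ℂ) ≠ 0 := by
    intro i hi h0
    have := hE i hi
    rw [h0, zero_mul] at this
    exact Complex.exp_ne_zero _ this
  have hb1 : (∏ i ∈ s, ((b i : ℂ)) ^ (m i)) ≠ 0 :=
    Finset.prod_ne_zero_iff.2 fun i hi => zpow_ne_zero _ (hb i hi)
  have hb2 : IsAlgebraic ℚ (∏ i ∈ s, ((b i : ℂ)) ^ (m i)) := by
    rw [← mem_Qb]
    exact prod_mem fun i _ => zpow_mem (b i).2 _
  have h5 : IsAlgebraic ℚ (∏ i ∈ s, (t - (r i : ℂ)) ^ (m i)) := by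
    rw [h4] at h1
    have : (∏ i ∈ s, (t - (r i : ℂ)) ^ (m i)) = (∏ i ∈ s, ((b i : ℂ)) ^ (m i))⁻¹ *
      ((∏ i ∈ s, ((b i : ℂ)) ^ (m i)) * ∏ i ∈ s, (t - (r i : ℂ)) ^ (m i)) := by
      field_simp
    rw [this]
    exact hb2.inv.mul h1
  intro i hi
  have h6 := mult_ind ht s r hr m h5 i hi
  have h7 := hm i hi
  rw [h6] at h7
  have h8 : (D : ℚ) ≠ 0 := by exact_mod_cast hD
  push_cast at h7
  exact (mul_eq_zero.1 h7.symm).resolve_left h8

theorem alg_zpow {F : Type} [Field F] [Algebra F ℂ] {x : ℂ} (hx : IsAlgebraic F x) (m : ℤ) :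
    IsAlgebraic F (x ^ m) := by
  cases m with
  | ofNat k => simpa using hx.pow k
  | negSucc k => rw [zpow_negSucc]; exact (hx.pow _).inv

theorem alg_exp_rat' {F : Type} [Field F] [Algebra F ℂ] {z : ℂ}
    (h : IsAlgebraic F (Complex.exp z)) (q : ℚ) : IsAlgebraic F (Complex.exp (q * z)) := by
  have h1 : Complex.exp (q * z) ^ q.den = Complex.exp z ^ q.num := by
    rw [← Complex.exp_nat_mul, ← Complex.exp_int_mul]
    congr 1
    have h3 := congrArg (fun z : ℚ => (z : ℂ)) (Rat.mul_den_eq_num q)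
    push_cast at h3
    rw [← h3]; ring
  refine IsAlgebraic.of_pow (n := q.den) q.pos ?_
  rw [h1]; exact alg_zpow h _

/-- elements of `N` whose exponential is algebraic over `F` -/
def algS (F : Type) [Field F] [Algebra F ℂ] {M : Type} [AddCommGroup M] [Module ℚ M]
    (φ : M →ₗ[ℚ] ℂ) (N : Submodule ℚ M) : Submodule ℚ M where
  carrier := {x | x ∈ N ∧ IsAlgebraic F (Complex.exp (φ x))}
  add_mem' := by
    rintro a b ⟨ha, ha'⟩ ⟨hb, hb'⟩
    refine ⟨N.add_mem ha hb, ?_⟩
    rw [map_add, Complex.exp_add]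
    exact ha'.mul hb'
  zero_mem' := by
    refine ⟨N.zero_mem, ?_⟩
    rw [map_zero, Complex.exp_zero]
    exact isAlgebraic_one
  smul_mem' := by
    rintro q a ⟨ha, ha'⟩
    refine ⟨N.smul_mem q ha, ?_⟩
    have h1 : φ (q • a) = (q : ℂ) * φ a := by
      rw [map_smul, Algebra.smul_def]; simp
    rw [h1]
    exact alg_exp_rat' ha' q

theorem mem_algS {F : Type} [Field F] [Algebra F ℂ] {M : Type} [AddCommGroup M] [Module ℚ M]
    {φ : M →ₗ[ℚ] ℂ} {N : Submodule ℚ M} {x : M} :
    x ∈ algS F φ N ↔ x ∈ N ∧ IsAlgebraic F (Complex.exp (φ x)) := Iff.rfl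

/-- **structure of the exceptional set** -/
theorem struct {t : ℂ} (ht : Transcendental ℚ t) {M : Type} [AddCommGroup M] [Module ℚ M]
    (φ : M →ₗ[ℚ] ℂ) (N : Submodule ℚ M) [FiniteDimensional ℚ N] :
    ∃ (c : ℕ) (f : Fin c → M),
      (∀ x, (x ∈ N ∧ ¬ LinearIndependent Qb ![(1 : ℂ), t, Complex.exp (φ x)]) ↔
        x ∈ algS ℚ φ N ∨ ∃ i, x - f i ∈ algS ℚ φ N) ∧
      LinearIndependent ℚ (fun i => (algS ℚ φ N).mkQ (f i)) ∧
      finrank ℚ (algS ℚ φ N) + c ≤ finrank ℚ (algS (IntermediateField.adjoin ℚ {t}) φ N) := by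
  classical
  set V := algS ℚ φ N with hV
  set U := algS (IntermediateField.adjoin ℚ {t}) φ N with hU
  have hVN : V ≤ N := fun x hx => hx.1
  have hUN : U ≤ N := fun x hx => hx.1
  have : FiniteDimensional ℚ V := Submodule.finiteDimensional_of_le hVN
  have : FiniteDimensional ℚ U := Submodule.finiteDimensional_of_le hUN
  have hVU : V ≤ U := by
    rintro x ⟨h1, h2⟩
    exact ⟨h1, h2.extendScalars (algebraMap ℚ (IntermediateField.adjoin ℚ {t})).injective⟩
  have tal : IsAlgebraic (IntermediateField.adjoin ℚ {t}) t :=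
    isAlgebraic_algebraMap (⟨t, IntermediateField.mem_adjoin_simple_self ℚ t⟩ :
      IntermediateField.adjoin ℚ {t})
  have qal : ∀ b : Qb, IsAlgebraic (IntermediateField.adjoin ℚ {t}) (b : ℂ) := fun b =>
    (mem_Qb.1 b.2).extendScalars (algebraMap ℚ (IntermediateField.adjoin ℚ {t})).injective
  -- the roots
  let R : Type := {r : Qb // ∃ x ∈ N, ∃ b : Qb, Complex.exp (φ x) = b * (t - r)}
  choose f hfN b hf using fun r : R => r.2
  have hli : LinearIndependent ℚ (fun r : R => V.mkQ (f r)) := by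
    rw [linearIndependent_iff']
    intro s g hg
    have h1 : ∑ i ∈ s, g i • f i ∈ V := by
      rw [← Submodule.Quotient.mk_eq_zero, ← Submodule.mkQ_apply, map_sum]
      simpa using hg
    have h2 := h1.2
    have h3 : φ (∑ i ∈ s, g i • f i) = ∑ i ∈ s, (g i : ℂ) * φ (f i) := by
      rw [map_sum]
      refine Finset.sum_congr rfl fun i _ => ?_
      rw [map_smul, Algebra.smul_def]; simp
    rw [h3] at h2
    exact comb ht s (fun i => φ (f i)) (fun i => i.1) b (fun i _ => hf i)
      (fun i _ j _ h => Subtype.ext h) g h2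
  have hfU : ∀ r, f r ∈ U := by
    intro r
    refine ⟨hfN r, ?_⟩
    rw [hf r]
    exact (qal _).mul (tal.sub (qal _))
  let Q := U.map V.mkQ
  have hQ : ∀ r, V.mkQ (f r) ∈ Q := fun r => Submodule.mem_map_of_mem (hfU r)
  have hli2 : LinearIndependent ℚ (fun r : R => (⟨V.mkQ (f r), hQ r⟩ : Q)) := by
    refine LinearIndependent.of_comp Q.subtype ?_
    exact hli
  have : FiniteDimensional ℚ Q := inferInstance
  have : Finite R := hli2.finite
  obtain ⟨c, ⟨e⟩⟩ := Finite.exists_equiv_fin R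
  have : Fintype R := Fintype.ofFinite R
  have hcard : Fintype.card R = c := by rw [Fintype.card_congr e, Fintype.card_fin]
  have hdim : finrank ℚ Q + finrank ℚ V = finrank ℚ U := by
    have h1 := LinearMap.finrank_range_add_finrank_ker (V.mkQ.domRestrict U)
    have h2 : LinearMap.range (V.mkQ.domRestrict U) = Q := by
      rw [LinearMap.range_domRestrict]
    have h3 : finrank ℚ (LinearMap.ker (V.mkQ.domRestrict U)) = finrank ℚ V := by
      have h4 : LinearMap.ker (V.mkQ.domRestrict U) = Submodule.comap U.subtype V := by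
        ext x; simp [LinearMap.mem_ker]
      rw [h4]
      exact (Submodule.comapSubtypeEquivOfLe hVU).finrank_eq
    rw [h2, h3] at h1
    exact h1
  refine ⟨c, fun i => f (e.symm i), ?_, ?_, ?_⟩
  · intro x
    rw [dep_iff ht]
    constructor
    · rintro ⟨hxN, a, b', hab⟩
      by_cases hb : b' = 0
      · left
        refine ⟨hxN, ?_⟩
        rw [hab, hb]
        have : (a : ℂ) + ((0 : Qb) : ℂ) * t = a := by push_cast; ring
        rw [this]; exact mem_Qb.1 a.2
      · right
        have hb' : (b' : ℂ) ≠ 0 := fun h => hb (Subtype.ext h)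
        have hx : ∃ x ∈ N, ∃ b : Qb, Complex.exp (φ x) = b * (t - ((-a / b' : Qb) : ℂ)) := by
          refine ⟨x, hxN, b', ?_⟩
          rw [hab]; push_cast; field_simp; ring
        let r : R := ⟨-a / b', hx⟩
        refine ⟨e r, ?_⟩
        simp only [Equiv.symm_apply_apply]
        refine ⟨N.sub_mem hxN (hfN r), ?_⟩
        rw [map_sub, Complex.exp_sub, hf r, hab]
        have h1 : t - (r.1 : ℂ) ≠ 0 := by
          intro h0
          refine ht ?_
          rw [sub_eq_zero.1 h0]; exact mem_Qb.1 r.1.2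
        have hbr : (b r : ℂ) ≠ 0 := by
          intro h0
          have := hf r
          rw [h0, zero_mul] at this
          exact Complex.exp_ne_zero _ this
        have h2 : ((a : ℂ) + b' * t) / (b r * (t - (r.1 : ℂ))) = b' / b r := by
          have h3 : (a : ℂ) + b' * t = b' * (t - (r.1 : ℂ)) := by
            change (a : ℂ) + b' * t = b' * (t - ((-a / b' : Qb) : ℂ))
            push_cast; field_simp; ring
          rw [h3]; field_simp
        rw [h2]
        exact mem_Qb.1 (div_mem b'.2 (b r).2)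
    · rintro (h | ⟨i, h⟩)
      · refine ⟨h.1, ⟨_, mem_Qb.2 h.2⟩, 0, ?_⟩
        push_cast; simp
      · set r := e.symm i with hr
        have hxN : x ∈ N := by
          have h5 : x - f r + f r ∈ N := N.add_mem h.1 (hfN r)
          rwa [sub_add_cancel] at h5
        refine ⟨hxN, ?_⟩
        have h1 : Complex.exp (φ x) = Complex.exp (φ (x - f r)) * Complex.exp (φ (f r)) := by
          rw [← Complex.exp_add, map_sub]; congr 1; ring
        let c' : Qb := ⟨_, mem_Qb.2 h.2⟩
        refine ⟨-(c' * b r * r.1), c' * b r, ?_⟩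
        rw [h1, hf r]
        change (c' : ℂ) * (b r * (t - (r.1 : ℂ))) = _
        push_cast; ring
  · exact hli.comp _ e.symm.injective
  · have h1 := hli2.fintype_card_le_finrank
    rw [hcard] at h1
    omega

/-- **affine independence of the exceptional set in a coset** -/
theorem aff {t : ℂ} (ht : Transcendental ℚ t) (W : Submodule ℚ ℂ) (u : ℂ)
    (hW : ∀ w ∈ W, w ≠ 0 → Transcendental ℚ (Complex.exp w)) :
    AffineIndependent ℚ (fun w : {w : ℂ // w ∈ W ∧
      ¬ LinearIndependent Qb ![(1 : ℂ), t, Complex.exp (u + w)]} => (w : ℂ)) := by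
  classical
  rw [affineIndependent_iff]
  intro s g hg0 hg1
  choose a b hab using fun w : {w : ℂ // w ∈ W ∧
      ¬ LinearIndependent Qb ![(1 : ℂ), t, Complex.exp (u + w)]} => (dep_iff ht).1 w.2.2
  have hlin : ∀ s' : Finset {w : ℂ // w ∈ W ∧
      ¬ LinearIndependent Qb ![(1 : ℂ), t, Complex.exp (u + w)]},
      (∀ w ∈ s', b w ≠ 0) → IsAlgebraic ℚ (Complex.exp (∑ w ∈ s', (g w : ℂ) * (u + w))) →
      ∀ w ∈ s', g w = 0 := by
    intro s' hb h
    refine comb ht s' (fun w => u + w) (fun w => -a w / b w) b ?_ ?_ g h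
    · intro w hw
      have hb' : (b w : ℂ) ≠ 0 := fun h => hb w hw (Subtype.ext h)
      rw [hab w]; push_cast; field_simp; ring
    · intro w hw w' hw' h0
      by_contra hne
      have hb1 : (b w : ℂ) ≠ 0 := fun h => hb w hw (Subtype.ext h)
      have hb2 : (b w' : ℂ) ≠ 0 := fun h => hb w' hw' (Subtype.ext h)
      have hne' : (w : ℂ) - w' ≠ 0 := fun h => hne (Subtype.ext (sub_eq_zero.1 h))
      refine hW _ (W.sub_mem w.2.1 w'.2.1) hne' ?_
      have h1 : Complex.exp ((w : ℂ) - w') = Complex.exp (u + w) / Complex.exp (u + w') := by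
        rw [← Complex.exp_sub]; congr 1; ring
      have h0' : (a w : ℂ) * b w' = a w' * b w := by
        have h2 := congrArg (fun z : Qb => (z : ℂ)) h0
        push_cast at h2
        field_simp at h2
        linear_combination -h2
      have hw0 : (a w' : ℂ) + b w' * t ≠ 0 := by rw [← hab w']; exact Complex.exp_ne_zero _
      have h3 : Complex.exp ((w : ℂ) - w') = b w / b w' := by
        rw [h1, hab w, hab w', div_eq_div_iff hw0 hb2]
        linear_combination h0'
      rw [h3]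
      exact mem_Qb.1 (div_mem (b w).2 (b w').2)
  have hsum : ∑ w ∈ s, (g w : ℂ) * (u + w) = 0 := by
    have h1 : ∑ w ∈ s, (g w : ℂ) * (u + w) = ((∑ w ∈ s, g w : ℚ) : ℂ) * u +
        ∑ w ∈ s, g w • (w : ℂ) := by
      push_cast
      rw [Finset.sum_mul, ← Finset.sum_add_distrib]
      refine Finset.sum_congr rfl fun w _ => ?_
      rw [Algebra.smul_def]
      simp; ring
    have h2 : (∑ w ∈ s, g w) = 0 := hg0
    rw [h1, h2, hg1]; simp
  have hsplit := Finset.sum_filter_add_sum_filter_not s (fun w => b w ≠ 0)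
    (fun w => (g w : ℂ) * (u + w))
  rw [hsum] at hsplit
  have h1 : ∀ w ∈ s.filter (fun w => b w ≠ 0), g w = 0 := by
    refine hlin _ (fun w hw => (Finset.mem_filter.1 hw).2) ?_
    have h2 : ∑ w ∈ s.filter (fun w => b w ≠ 0), (g w : ℂ) * (u + w) =
        ∑ w ∈ s.filter (fun w => ¬ b w ≠ 0), ((-g w : ℚ) : ℂ) * (u + w) := by
      rw [eq_neg_of_add_eq_zero_left hsplit, ← Finset.sum_neg_distrib]
      refine Finset.sum_congr rfl fun w _ => ?_
      push_cast; ring
    rw [h2, Complex.exp_sum, ← mem_Qb]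
    refine prod_mem fun w hw => mem_Qb.2 (alg_exp_rat ?_ _)
    have h3 : b w = 0 := by
      have := (Finset.mem_filter.1 hw).2
      push Not at this
      exact this
    rw [hab w, h3]
    have : (a w : ℂ) + ((0 : Qb) : ℂ) * t = a w := by push_cast; ring
    rw [this]; exact mem_Qb.1 (a w).2
  intro w hw
  by_cases hb : b w ≠ 0
  · exact h1 w (Finset.mem_filter.2 ⟨hw, hb⟩)
  · have h2 : ∀ w' ∈ s, w' ≠ w → g w' = 0 := by
      intro w' hw' hne
      by_cases hb' : b w' ≠ 0
      · exact h1 w' (Finset.mem_filter.2 ⟨hw', hb'⟩)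
      · exfalso
        push Not at hb hb'
        have hne' : (w : ℂ) - w' ≠ 0 := fun h => hne (Subtype.ext (sub_eq_zero.1 h)).symm
        refine hW _ (W.sub_mem w.2.1 w'.2.1) hne' ?_
        have h1 : Complex.exp ((w : ℂ) - w') = Complex.exp (u + w) / Complex.exp (u + w') := by
          rw [← Complex.exp_sub]; congr 1; ring
        have z : ∀ a : Qb, (a : ℂ) + ((0 : Qb) : ℂ) * t = a := by
          intro a; push_cast; ring
        rw [h1, hab w, hab w', hb, hb', z, z]
        exact mem_Qb.1 (div_mem (a w).2 (a w').2)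
    have h3 : (∑ w ∈ s, g w) = 0 := hg0
    rwa [Finset.sum_eq_single_of_mem w hw h2] at h3

/-- **pairs of powers** -/
theorem pairs {u v : ℂ} (hu : Transcendental ℚ u) (hv : Transcendental ℚ v) {j k j' k' : ℕ}
    (hj : 1 ≤ j) (hk : 1 ≤ k) (hj' : 1 ≤ j') (hk' : 1 ≤ k')
    (h1 : ¬ LinearIndependent Qb ![(1 : ℂ), u ^ j, v ^ k])
    (h2 : ¬ LinearIndependent Qb ![(1 : ℂ), u ^ j', v ^ k']) (hne : (j, k) ≠ (j', k')) :
    j * k' = j' * k ∧ IsAlgebraic ℚ (u ^ j / v ^ k) := by
  obtain ⟨a, b, hab⟩ := (dep_iff (hu.pow (by omega))).1 h1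
  obtain ⟨a', b', hab'⟩ := (dep_iff (hu.pow (by omega))).1 h2
  have z : ∀ (a : Qb) (x : ℂ), (a : ℂ) + ((0 : Qb) : ℂ) * x = a := by
    intro a x; push_cast; ring
  have hb : b ≠ 0 := by
    rintro rfl
    rw [z] at hab
    exact (hv.pow (n := k) (by omega)) (by rw [hab]; exact mem_Qb.1 a.2)
  have hb' : b' ≠ 0 := by
    rintro rfl
    rw [z] at hab'
    exact (hv.pow (n := k') (by omega)) (by rw [hab']; exact mem_Qb.1 a'.2)
  have key : ((C a + C b * X ^ j) ^ k' : Qb[X]) = (C a' + C b' * X ^ j') ^ k := by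
    apply eval_inj hu
    simp only [map_pow, map_add, map_mul, aeval_C, aeval_X]
    change ((a : ℂ) + b * u ^ j) ^ k' = ((a' : ℂ) + b' * u ^ j') ^ k
    rw [← hab, ← hab']; ring
  have deg : ∀ (a b : Qb) (j : ℕ), b ≠ 0 → 1 ≤ j → (C a + C b * X ^ j : Qb[X]).natDegree = j := by
    intro a b j hb hj
    rw [natDegree_add_eq_right_of_natDegree_lt, natDegree_C_mul_X_pow j b hb]
    rw [natDegree_C_mul_X_pow j b hb, natDegree_C]; omega
  have hdeg : k' * j = k * j' := by
    have h := congrArg natDegree key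
    rwa [natDegree_pow, natDegree_pow, deg a b j hb hj, deg a' b' j' hb' hj'] at h
  refine ⟨by linarith, ?_⟩
  have h0 := congrArg (eval 0) key
  simp only [eval_pow, eval_add, eval_mul, eval_C, eval_X] at h0
  rw [zero_pow (by omega : j ≠ 0), zero_pow (by omega : j' ≠ 0), mul_zero, mul_zero, add_zero,
    add_zero] at h0
  by_cases ha : a = 0
  · rw [hab, ha]
    have h3 : (b : ℂ) ≠ 0 := fun h => hb (Subtype.ext h)
    have h4 : u ^ j ≠ 0 := pow_ne_zero _ (by rintro rfl; exact hu isAlgebraic_zero)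
    have h5 : u ^ j / (((0 : Qb) : ℂ) + b * u ^ j) = (b : ℂ)⁻¹ := by
      push_cast; field_simp; simp
    rw [h5]
    exact (mem_Qb.1 b.2).inv
  · exfalso
    have ha' : a' ≠ 0 := by
      rintro rfl
      rw [zero_pow (by omega)] at h0
      exact ha (pow_eq_zero_iff (by omega) |>.1 h0)
    have hder := congrArg derivative key
    simp only [derivative_pow, derivative_add, derivative_C, derivative_mul, derivative_X,
      zero_add, zero_mul, mul_one] at hder
    -- order of vanishing at `0`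
    have ord : ∀ (j j' : ℕ) (A B : Qb[X]), j < j' → A.eval 0 ≠ 0 →
        A * X ^ j = B * X ^ j' → False := by
      intro j j' A B hlt hA h
      obtain ⟨d, rfl⟩ := Nat.exists_eq_add_of_lt hlt
      have h6 : A = B * X ^ (d + 1) := by
        have h7 : A * X ^ j = (B * X ^ (d + 1)) * X ^ j := by rw [h]; ring
        exact mul_right_cancel₀ (pow_ne_zero _ X_ne_zero) h7
      apply hA
      rw [h6]; simp
    set A : Qb[X] := C (k' : Qb) * (C a + C b * X ^ j) ^ (k' - 1) * (C b * C (j : Qb)) with hA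
    set B : Qb[X] := C (k : Qb) * (C a' + C b' * X ^ j') ^ (k - 1) * (C b' * C (j' : Qb)) with hB
    have hAB : A * X ^ (j - 1) = B * X ^ (j' - 1) := by
      rw [hA, hB]
      linear_combination hder
    have hA0 : A.eval 0 ≠ 0 := by
      rw [hA]
      simp only [eval_mul, eval_C, eval_pow, eval_add, eval_X]
      rw [zero_pow (by omega : j ≠ 0), mul_zero, add_zero]
      have e1 : (k' : Qb) ≠ 0 := by exact_mod_cast (by omega : k' ≠ 0)
      have e2 : (j : Qb) ≠ 0 := by exact_mod_cast (by omega : j ≠ 0)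
      exact mul_ne_zero (mul_ne_zero e1 (pow_ne_zero _ ha)) (mul_ne_zero hb e2)
    have hB0 : B.eval 0 ≠ 0 := by
      rw [hB]
      simp only [eval_mul, eval_C, eval_pow, eval_add, eval_X]
      rw [zero_pow (by omega : j' ≠ 0), mul_zero, add_zero]
      have e1 : (k : Qb) ≠ 0 := by exact_mod_cast (by omega : k ≠ 0)
      have e2 : (j' : Qb) ≠ 0 := by exact_mod_cast (by omega : j' ≠ 0)
      exact mul_ne_zero (mul_ne_zero e1 (pow_ne_zero _ ha')) (mul_ne_zero hb' e2)
    rcases lt_trichotomy j j' with hlt | heq | hlt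
    · exact ord _ _ A B (by omega) hA0 hAB
    · apply hne
      subst heq
      have : k' = k := Nat.eq_of_mul_eq_mul_right (by omega) hdeg
      rw [this]
    · exact ord _ _ B A (by omega) hB0 hAB.symm

end Pool.Agent.W309.LR
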