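import Pool.Agent.W243.TD.Main
import Pool.Agent.W309.LR.Elem

/-!
# Dimension bounds over a number field
-/

set_option autoImplicit false

namespace Pool.Agent.W309.LR

open Polynomial Module
open Pool.Agent.W243.TD (Al)

/-- evaluation at `t` as a `ℚ`-linear map -/
noncomputable def ev (K : IntermediateField ℚ ℂ) (t : ℂ) : K[X] →ₗ[ℚ] ℂ :=
  ((aeval t : K[X] →ₐ[K] ℂ).toLinearMap).restrictScalars ℚ

/-- `P ↦ y P(t)` -/
noncomputable def phi (K : IntermediateField ℚ ℂ) (t y : ℂ) : K[X] →ₗ[ℚ] ℂ :=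
  (LinearMap.mulLeft ℚ y).comp (ev K t)

theorem ev_apply (K : IntermediateField ℚ ℂ) (t : ℂ) (P : K[X]) : ev K t P = aeval t P := rfl

theorem phi_apply (K : IntermediateField ℚ ℂ) (t y : ℂ) (P : K[X]) :
    phi K t y P = y * aeval t P := rfl

/-- polynomials of degree less than `k` -/
noncomputable def Dg (K : IntermediateField ℚ ℂ) (k : ℕ) : Submodule ℚ K[X] :=
  (degreeLT K k).restrictScalars ℚ

theorem mem_Dg {K : IntermediateField ℚ ℂ} {k : ℕ} {P : K[X]} :
    P ∈ Dg K (k + 1) ↔ P.natDegree ≤ k := by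
  change P ∈ degreeLT K (k + 1) ↔ _
  rw [mem_degreeLT]
  by_cases hP : P = 0
  · subst hP; simp [WithBot.bot_lt_coe]
  · rw [← natDegree_lt_iff_degree_lt hP]; omega

theorem mem_Dg' {K : IntermediateField ℚ ℂ} {k : ℕ} {P : K[X]} :
    P ∈ Dg K k ↔ P.degree < (k : WithBot ℕ) := by
  change P ∈ degreeLT K k ↔ _
  rw [mem_degreeLT]

variable (K : IntermediateField ℚ ℂ) [FiniteDimensional ℚ K]

noncomputable def eqv (k : ℕ) : Dg K k ≃ₗ[ℚ] (Fin k → K) :=
  (degreeLTEquiv K k).restrictScalars ℚ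

instance (k : ℕ) : FiniteDimensional ℚ (Dg K k) :=
  Module.Finite.equiv (eqv K k).symm

theorem finrank_Dg (k : ℕ) : finrank ℚ (Dg K k) = k * finrank ℚ K := by
  rw [(eqv K k).finrank_eq, Module.finrank_pi_fintype]
  simp

theorem ev_inj {t : ℂ} (ht : Transcendental ℚ t) : Function.Injective (ev K t) := by
  have h : Algebra.IsAlgebraic ℚ K := Algebra.IsAlgebraic.of_finite ℚ K
  exact transcendental_iff_injective.1 ((Algebra.IsAlgebraic.transcendental_iff ℚ K).1 ht)

theorem phi_inj {t y : ℂ} (ht : Transcendental ℚ t) (hy : y ≠ 0) :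
    Function.Injective (phi K t y) := by
  intro P Q h
  rw [phi_apply, phi_apply] at h
  exact ev_inj K ht (mul_left_cancel₀ hy h)

theorem al_t (t : ℂ) : Al t t :=
  isAlgebraic_algebraMap (⟨t, IntermediateField.mem_adjoin_simple_self ℚ t⟩ :
      IntermediateField.adjoin ℚ {t})

theorem al_ev (t : ℂ) (P : K[X]) : Al t (aeval t P) := by
  induction P using Polynomial.induction_on with
  | C a =>
    rw [aeval_C]
    have h : Algebra.IsAlgebraic ℚ K := Algebra.IsAlgebraic.of_finite ℚ K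
    have h1 : IsAlgebraic ℚ (algebraMap K ℂ a) := (h.isAlgebraic a).algebraMap
    exact h1.extendScalars (algebraMap ℚ (IntermediateField.adjoin ℚ {t})).injective
  | add p q hp hq => rw [map_add]; exact hp.add hq
  | monomial n a h =>
    have : aeval t (C a * X ^ (n + 1) : K[X]) = aeval t (C a * X ^ n : K[X]) * t := by
      simp only [map_mul, map_pow, aeval_C, aeval_X]; ring
    rw [this]
    exact h.mul (al_t t)

theorem fmap {M : Type} [AddCommGroup M] [Module ℚ M] {f : M →ₗ[ℚ] ℂ}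
    (hf : Function.Injective f) (p : Submodule ℚ M) : finrank ℚ (p.map f) = finrank ℚ p :=
  ((Submodule.equivMapOfInjective f hf p).finrank_eq).symm

theorem mul_deg {n k : ℕ} {P Q : K[X]} (hQ : Q ∈ Dg K k) (hP : P ∈ Dg K (n + 1)) :
    Q * P ∈ Dg K (n + k) := by
  have h1 := mem_Dg'.1 hQ
  have h2 := mem_Dg.1 hP
  apply mem_Dg'.2
  by_cases h0 : Q * P = 0
  · rw [h0]; simp [WithBot.bot_lt_coe]
  · have hQ0 : Q ≠ 0 := left_ne_zero_of_mul h0
    have hP0 : P ≠ 0 := right_ne_zero_of_mul h0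
    rw [← natDegree_lt_iff_degree_lt h0, natDegree_mul hQ0 hP0]
    rw [← natDegree_lt_iff_degree_lt hQ0] at h1
    omega

theorem arith (c m k n D : ℕ) (hm : 0 < m) (hk : 0 < k)
    (h : k * m * D ≤ (n + k) * m + c * (k * m * (k * m - 1))) :
    k * D + c * k ≤ n + k + c * (m * k ^ 2) := by
  have h1 : k * m * (k * m - 1) + k * m = k * m * (k * m) := by
    obtain ⟨b, hb⟩ : ∃ b, k * m = b + 1 := ⟨k * m - 1, by
      have := Nat.mul_pos hk hm; omega⟩
    rw [hb]; simp; ring
  have h2 : m * (k * D + c * k) ≤ m * (n + k + c * (m * k ^ 2)) := by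
    calc m * (k * D + c * k) = k * m * D + c * (k * m) := by ring
      _ ≤ (n + k) * m + c * (k * m * (k * m - 1)) + c * (k * m) := by omega
      _ = (n + k) * m + c * (k * m * (k * m - 1) + k * m) := by ring
      _ = m * (n + k + c * (m * k ^ 2)) := by rw [h1]; ring
  exact Nat.le_of_mul_le_mul_left h2 hm

theorem bound1 {t y : ℂ} (ht : Transcendental ℚ t) (hy : y ≠ 0) (hya : Al t y) (n k : ℕ) :
    k * finrank ℚ (algS (IntermediateField.adjoin ℚ {t}) (phi K t y) (Dg K (n + 1))) ≤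
      n + finrank ℚ K * k ^ 2 := by
  rcases Nat.eq_zero_or_pos k with rfl | hk
  · simp
  set U := algS (IntermediateField.adjoin ℚ {t}) (phi K t y) (Dg K (n + 1)) with hU
  have hUN : U ≤ Dg K (n + 1) := fun x hx => hx.1
  have f1 : FiniteDimensional ℚ U := Submodule.finiteDimensional_of_le hUN
  have hm : 0 < finrank ℚ K := finrank_pos
  have h := Pool.Agent.W243.TD.prod1 ht ((Dg K k).map (ev K t)) (U.map (phi K t y))
    ((Dg K (n + k)).map (phi K t y)) (by
      rintro _ ⟨P, hP, rfl⟩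
      exact hya.mul (al_ev K t P)) (by
      rintro _ ⟨P, hP, rfl⟩
      exact hP.2) (by
      rintro _ ⟨Q, hQ, rfl⟩ _ ⟨P, hP, rfl⟩
      refine ⟨Q * P, mul_deg K hQ (hUN hP), ?_⟩
      rw [phi_apply, ev_apply, phi_apply, map_mul]; ring)
  rw [fmap (ev_inj K ht), fmap (phi_inj K ht hy), fmap (phi_inj K ht hy), finrank_Dg,
    finrank_Dg] at h
  have := arith 1 _ k n _ hm hk (by rw [one_mul]; exact h)
  omega

theorem bound2 {t y : ℂ} (ht : Transcendental ℚ t) (hy : y ≠ 0) (n k : ℕ) :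
    k * (finrank ℚ (algS (IntermediateField.adjoin ℚ {t}) (phi K t y) (Dg K (n + 1))) + 1) ≤
      n + 2 * (finrank ℚ K * k ^ 2) := by
  rcases Nat.eq_zero_or_pos k with rfl | hk
  · simp
  set U := algS (IntermediateField.adjoin ℚ {t}) (phi K t y) (Dg K (n + 1)) with hU
  have hUN : U ≤ Dg K (n + 1) := fun x hx => hx.1
  have f1 : FiniteDimensional ℚ U := Submodule.finiteDimensional_of_le hUN
  have hm : 0 < finrank ℚ K := finrank_pos
  have h := Pool.Agent.W243.TD.prod2 ht hy ((Dg K k).map (ev K t)) (U.map (ev K t))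
    ((Dg K (n + k)).map (ev K t)) (by
      rintro _ ⟨P, hP, rfl⟩
      exact al_ev K t P) (by
      rintro _ ⟨P, hP, rfl⟩
      exact hP.2) (by
      rintro _ ⟨Q, hQ, rfl⟩ _ ⟨P, hP, rfl⟩
      refine ⟨Q * P, mul_deg K hQ (hUN hP), ?_⟩
      rw [ev_apply, ev_apply, ev_apply, map_mul])
  rw [fmap (ev_inj K ht), fmap (ev_inj K ht), fmap (ev_inj K ht), finrank_Dg,
    finrank_Dg] at h
  have := arith 2 _ k n _ hm hk h
  rw [mul_add, mul_one]
  omega

end Pool.Agent.W309.LR
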