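import Pool.Agent.W309.LR.Bound
import Pool.Agent.W242.GG.EE
import Pool.Agent.W242.GG.FourNum
import Pool.Agent.H335R2.BI

/-!
# Linear relations between `1`, `t` and exponentials: the statements
-/

set_option autoImplicit false

namespace Pool.Agent.W309.LR

open Polynomial Module
open Pool.Agent.W243.TD (Al)
open Pool.Agent.W242.GG

/-- multiplication by `y` on a space of numbers -/
noncomputable def mulY (y : ℂ) : ℂ →ₗ[ℚ] ℂ := LinearMap.mulLeft ℚ y

theorem mulY_apply (y z : ℂ) : mulY y z = y * z := rfl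

theorem mulY_inj {y : ℂ} (hy : y ≠ 0) : Function.Injective (mulY y) :=
  fun _ _ h => mul_left_cancel₀ hy h

/-- general spaces -/
theorem general {t y : ℂ} (ht : Transcendental ℚ t) (hy : y ≠ 0) (N : Submodule ℚ ℂ)
    (hN : FiniteDimensional ℚ N) (hNt : ∀ z ∈ N, ¬ AlgebraicIndependent ℚ ![t, z]) :
    ∃ (V : Submodule ℚ ℂ) (c : ℕ) (f : Fin c → ℂ),
      (∀ z, z ∈ V ↔ z ∈ N ∧ IsAlgebraic ℚ (Complex.exp (y * z))) ∧
      (∀ z, (z ∈ N ∧ ¬ LinearIndependent Qb ![(1 : ℂ), t, Complex.exp (y * z)]) ↔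
        z ∈ V ∨ ∃ i, z - f i ∈ V) ∧
      LinearIndependent ℚ (fun i => V.mkQ (f i)) ∧
      ∀ X Y : Submodule ℚ ℂ, FiniteDimensional ℚ X → FiniteDimensional ℚ Y →
        (∀ x ∈ X, ∀ z ∈ N, x * z ∈ Y) →
        finrank ℚ X * (finrank ℚ V + c) ≤
          finrank ℚ Y + 2 * (finrank ℚ X * (finrank ℚ X - 1)) ∧
        (¬ AlgebraicIndependent ℚ ![t, y] →
          finrank ℚ X * (finrank ℚ V + c) ≤ finrank ℚ Y + finrank ℚ X * (finrank ℚ X - 1)) := by
  obtain ⟨c, f, h1, h2, h3⟩ := struct ht (mulY y) N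
  refine ⟨algS ℚ (mulY y) N, c, f, fun z => Iff.rfl, h1, h2, ?_⟩
  intro X Y hX hY hXY
  set U := algS (IntermediateField.adjoin ℚ {t}) (mulY y) N with hU
  have hUN : U ≤ N := fun x hx => hx.1
  have f1 : FiniteDimensional ℚ U := Submodule.finiteDimensional_of_le hUN
  have hle : finrank ℚ X * (finrank ℚ (algS ℚ (mulY y) N) + c) ≤ finrank ℚ X * finrank ℚ U :=
    Nat.mul_le_mul_left _ h3
  constructor
  · refine hle.trans ?_
    exact Pool.Agent.W243.TD.prod2 ht hy X U Y (fun z hz => dep_alg ht (hNt z (hUN hz)))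
      (fun z hz => hz.2) (fun x hx z hz => hXY x hx z (hUN hz))
  · intro hya
    refine hle.trans ?_
    have h := Pool.Agent.W243.TD.prod1 ht X (U.map (mulY y)) (Y.map (mulY y)) (by
      rintro _ ⟨z, hz, rfl⟩
      exact (dep_alg ht hya).mul (dep_alg ht (hNt z (hUN hz)))) (by
      rintro _ ⟨z, hz, rfl⟩
      exact hz.2) (by
      rintro x hx _ ⟨z, hz, rfl⟩
      refine ⟨x * z, hXY x hx z (hUN hz), ?_⟩
      rw [mulY_apply, mulY_apply]; ring)
    rwa [fmap (mulY_inj hy), fmap (mulY_inj hy)] at h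

/-- polynomials over a number field -/
theorem polys {t y : ℂ} (ht : Transcendental ℚ t) (hy : y ≠ 0) (K : IntermediateField ℚ ℂ)
    (hK : FiniteDimensional ℚ K) (n : ℕ) :
    ∃ (V : Submodule ℚ K[X]) (c : ℕ) (f : Fin c → K[X]),
      (∀ P, P ∈ V ↔ P.natDegree ≤ n ∧ IsAlgebraic ℚ (Complex.exp (y * aeval t P))) ∧
      (∀ P : K[X], (P.natDegree ≤ n ∧
          ¬ LinearIndependent Qb ![(1 : ℂ), t, Complex.exp (y * aeval t P)]) ↔
        P ∈ V ∨ ∃ i, P - f i ∈ V) ∧
      LinearIndependent ℚ (fun i => V.mkQ (f i)) ∧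
      (∀ k, k * (finrank ℚ V + c + 1) ≤ n + 2 * (finrank ℚ K * k ^ 2)) ∧
      (¬ AlgebraicIndependent ℚ ![t, y] →
        ∀ k, k * (finrank ℚ V + c) ≤ n + finrank ℚ K * k ^ 2) := by
  obtain ⟨c, f, h1, h2, h3⟩ := struct ht (phi K t y) (Dg K (n + 1))
  refine ⟨algS ℚ (phi K t y) (Dg K (n + 1)), c, f, fun P => ?_, fun P => ?_, h2, ?_, ?_⟩
  · rw [mem_algS, mem_Dg, phi_apply]
  · rw [← h1 P, mem_Dg, phi_apply]
  · intro k
    refine le_trans ?_ (bound2 K ht hy n k)
    exact Nat.mul_le_mul_left _ (by omega)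
  · intro hya k
    refine le_trans ?_ (bound1 K ht hy (dep_alg ht hya) n k)
    exact Nat.mul_le_mul_left _ h3

theorem pi_alg_false {a b : ℂ} (ha : IsAlgebraic ℚ a) (hb : IsAlgebraic ℚ b)
    (h : IsAlgebraic ℚ (Complex.exp (a + b * Real.pi))) :
    a = 0 ∧ ∃ q : ℚ, b = q * Complex.I := by
  have hpi : IsAlgebraic ℚ (Complex.exp (Real.pi * Complex.I)) := by
    rw [Complex.exp_pi_mul_I]; exact isAlgebraic_one.neg
  have hI : IsAlgebraic ℚ Complex.I := by
    refine IsAlgebraic.of_pow (n := 2) (by norm_num) ?_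
    rw [Complex.I_sq]; exact isAlgebraic_one.neg
  have h1 := Pool.Agent.H335R2.bc2 hpi h (a := a) (b := -(b * Complex.I)) (c := -1) ha
    (hb.mul hI).neg isAlgebraic_one.neg (by
      linear_combination (-(b * Real.pi)) * Complex.I_sq)
  refine ⟨h1, ?_⟩
  rw [h1, zero_add] at h
  obtain ⟨q, hq⟩ := Pool.Agent.H335R2.bh2 h hpi (by
    simp [Real.pi_ne_zero, Complex.I_ne_zero]) (b := -(b * Complex.I)) (hb.mul hI).neg (by
      linear_combination (b * Real.pi) * Complex.I_sq)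
  refine ⟨q, ?_⟩
  rw [← hq]
  linear_combination b * Complex.I_sq

/-- the numbers `e ^ (α + β π)` -/
theorem lines (K : IntermediateField ℚ ℂ) (hK : FiniteDimensional ℚ K) (hI : Complex.I ∉ K) :
    {p : K × K | p ≠ 0 ∧ ¬ LinearIndependent Qb
      ![(1 : ℂ), Real.pi, Complex.exp (p.1 + p.2 * Real.pi)]}.encard ≤ finrank ℚ K + 1 := by
  classical
  obtain ⟨V, c, f, h1, h2, h3, -, h5⟩ := polys piC_tr one_ne_zero K hK 1
  have h6 := h5 (by
    intro h
    exact (h.transcendental 1) (by simpa using isAlgebraic_one)) 1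
  have hev : ∀ P : K[X], P.natDegree ≤ 1 → (1 : ℂ) * aeval (Real.pi : ℂ) P =
      (P.coeff 0 : ℂ) + (P.coeff 1 : ℂ) * Real.pi := by
    intro P hP
    rw [one_mul, Polynomial.aeval_eq_sum_range' (n := 2) (by omega), Finset.sum_range_succ,
      Finset.sum_range_one, pow_zero, pow_one, Algebra.smul_def, Algebra.smul_def, mul_one]
    rfl
  have alK : ∀ a : K, IsAlgebraic ℚ (a : ℂ) := by
    intro a
    have h : Algebra.IsAlgebraic ℚ K := Algebra.IsAlgebraic.of_finite ℚ K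
    exact (h.isAlgebraic a).algebraMap
  have hV : V = ⊥ := by
    rw [eq_bot_iff]
    intro P hP
    obtain ⟨hd, ha⟩ := (h1 P).1 hP
    rw [hev P hd] at ha
    obtain ⟨h7, q, h8⟩ := pi_alg_false (alK _) (alK _) ha
    have hq : q = 0 := by
      by_contra hq
      apply hI
      have : Complex.I = ((q⁻¹ : ℚ) : ℂ) * (P.coeff 1 : ℂ) := by
        rw [h8]
        have : (q : ℂ) ≠ 0 := by exact_mod_cast hq
        push_cast; field_simp
      rw [this]
      exact K.mul_mem (by simpa using K.algebraMap_mem q⁻¹) (P.coeff 1).2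
    rw [hq] at h8
    have e0 : P.coeff 0 = 0 := Subtype.ext h7
    have e1 : P.coeff 1 = 0 := Subtype.ext (by rw [h8]; simp)
    rw [Submodule.mem_bot]
    ext i
    rcases i with _ | _ | i
    · rw [e0]; simp
    · rw [e1]; simp
    · rw [coeff_eq_zero_of_natDegree_lt (by omega)]; simp
  have key : ∀ p ∈ {p : K × K | p ≠ 0 ∧ ¬ LinearIndependent Qb
      ![(1 : ℂ), Real.pi, Complex.exp (p.1 + p.2 * Real.pi)]},
      ∃ i, C p.1 + C p.2 * X = f i := by
    rintro p ⟨hp, hd⟩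
    have hdeg : (C p.1 + C p.2 * X : K[X]).natDegree ≤ 1 := by
      rw [add_comm]; exact natDegree_linear_le
    have h7 : (1 : ℂ) * aeval (Real.pi : ℂ) (C p.1 + C p.2 * X : K[X]) =
        (p.1 : ℂ) + p.2 * Real.pi := by
      simp only [one_mul, map_add, map_mul, aeval_C, aeval_X]; rfl
    have h8 := (h2 (C p.1 + C p.2 * X)).1 ⟨hdeg, by rw [h7]; exact hd⟩
    rw [hV] at h8
    rcases h8 with h8 | ⟨i, h8⟩
    · exfalso
      apply hp
      rw [Submodule.mem_bot] at h8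
      have e0 := congrArg (fun P => P.coeff 0) h8
      have e1 := congrArg (fun P => P.coeff 1) h8
      simp at e0 e1
      exact Prod.ext e0 e1
    · exact ⟨i, sub_eq_zero.1 ((Submodule.mem_bot ℚ).1 h8)⟩
  have hc : ∀ p : K × K, ∃ i : ℕ, p ∈ {p : K × K | p ≠ 0 ∧ ¬ LinearIndependent Qb
      ![(1 : ℂ), Real.pi, Complex.exp (p.1 + p.2 * Real.pi)]} → ∃ h : i < c,
      C p.1 + C p.2 * X = f ⟨i, h⟩ := by
    intro p
    by_cases hp : p ∈ {p : K × K | p ≠ 0 ∧ ¬ LinearIndependent Qb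
      ![(1 : ℂ), Real.pi, Complex.exp (p.1 + p.2 * Real.pi)]}
    · obtain ⟨i, hi⟩ := key p hp
      exact ⟨i, fun _ => ⟨i.2, hi⟩⟩
    · exact ⟨0, fun h => absurd h hp⟩
  choose g hg using hc
  have hinj : Set.InjOn g {p : K × K | p ≠ 0 ∧ ¬ LinearIndependent Qb
      ![(1 : ℂ), Real.pi, Complex.exp (p.1 + p.2 * Real.pi)]} := by
    intro p hp q hq h
    obtain ⟨i1, e1⟩ := hg p hp
    obtain ⟨i2, e2⟩ := hg q hq
    have h9 : (C p.1 + C p.2 * X : K[X]) = C q.1 + C q.2 * X := by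
      rw [e1, e2]
      congr 1
      exact Fin.ext h
    have e0 := congrArg (fun P => P.coeff 0) h9
    have e1 := congrArg (fun P => P.coeff 1) h9
    simp at e0 e1
    exact Prod.ext e0 e1
  have h10 : c ≤ finrank ℚ K + 1 := by omega
  calc _ ≤ ((Finset.range c : Finset ℕ) : Set ℕ).encard := by
        rw [← hinj.encard_image]
        refine Set.encard_le_encard ?_
        rintro _ ⟨p, hp, rfl⟩
        obtain ⟨h, -⟩ := hg p hp
        simpa using h
    _ = (c : ℕ∞) := by rw [Set.encard_coe_eq_coe_finsetCard, Finset.card_range]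
    _ ≤ ((finrank ℚ K + 1 : ℕ) : ℕ∞) := by exact_mod_cast h10
    _ = _ := by push_cast; rfl

end Pool.Agent.W309.LR
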